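import Mathlib

/-!
Subset sums of a set that consists of a subgroup `H` of prime order `p` and of `p - 2` further
elements in two opposite cosets: the sums that are missed form exactly one coset of `H`.
-/

namespace Pool.Agent.Y594.CT

open Finset

variable {p : ℕ}

theorem coset_missing (hp : p.Prime) (hp3 : 3 ≤ p) (A : Finset (ZMod p × ZMod p))
    (hA : A.card = 2 * p - 2) (H : AddSubgroup (ZMod p × ZMod p)) (a : ZMod p × ZMod p)
    (A₁ A₂ : Finset (ZMod p × ZMod p)) (hH : Nat.card H = p) (ha : a ∉ H)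
    (h1 : ∀ x ∈ A₁, x - a ∈ H) (h2 : ∀ x ∈ A₂, x + a ∈ H)
    (hAu : (A : Set (ZMod p × ZMod p)) = (H : Set (ZMod p × ZMod p)) ∪ A₁ ∪ A₂) :
    A₁.card + A₂.card = p - 2 ∧
      ∀ x, x ∉ A.subsetSum ↔ x - (A₁.card + 1) • a ∈ H := by
  classical
  have : Fact p.Prime := ⟨hp⟩
  have : NeZero p := ⟨hp.ne_zero⟩
  obtain ⟨π, hπ⟩ : ∃ π : ZMod p × ZMod p →+ (ZMod p × ZMod p) ⧸ H, π = QuotientAddGroup.mk' H :=
    ⟨_, rfl⟩
  have hker : ∀ x, π x = 0 ↔ x ∈ H := by
    intro x
    rw [hπ]
    exact QuotientAddGroup.eq_zero_iff x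
  obtain ⟨b, hb⟩ : ∃ b, b = π a := ⟨_, rfl⟩
  have hb0 : b ≠ 0 := by
    rw [hb]
    exact fun h => ha ((hker a).1 h)
  have hcard : Nat.card ((ZMod p × ZMod p) ⧸ H) = p := by
    have h := AddSubgroup.card_eq_card_quotient_mul_card_addSubgroup H
    rw [hH] at h
    have h3 : Nat.card (ZMod p × ZMod p) = p * p := by
      rw [Nat.card_prod, Nat.card_zmod]
    rw [h3] at h
    exact (Nat.eq_of_mul_eq_mul_right hp.pos h).symm
  have hord : addOrderOf b = p := by
    apply addOrderOf_eq_prime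
    · have := addOrderOf_dvd_natCard b
      rw [hcard] at this
      exact addOrderOf_dvd_iff_nsmul_eq_zero.1 this
    · exact hb0
  have hpb : p • b = 0 := addOrderOf_dvd_iff_nsmul_eq_zero.1 (dvd_of_eq hord)
  have hp1 : ∀ x ∈ A₁, π x = b := by
    intro x hx
    have := (hker _).2 (h1 x hx)
    rw [map_sub, sub_eq_zero] at this
    rw [this, hb]
  have hp2 : ∀ x ∈ A₂, π x = -b := by
    intro x hx
    have := (hker _).2 (h2 x hx)
    rw [map_add] at this
    rw [hb]
    exact eq_neg_of_add_eq_zero_left this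
  have hbb : b ≠ -b := by
    intro h
    have h3 : 2 • b = 0 := by
      rw [two_nsmul]
      nth_rw 1 [h]
      exact neg_add_cancel b
    have h4 := addOrderOf_dvd_iff_nsmul_eq_zero.2 h3
    rw [hord] at h4
    have := Nat.le_of_dvd (by norm_num) h4
    omega
  have hd12 : Disjoint A₁ A₂ := by
    rw [Finset.disjoint_left]
    intro x hx1 hx2
    exact hbb ((hp1 x hx1).symm.trans (hp2 x hx2))
  obtain ⟨HF, hHF⟩ : ∃ HF : Finset (ZMod p × ZMod p), HF = univ.filter (fun x => x ∈ H) := ⟨_, rfl⟩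
  have hHFc : HF.card = p := by
    have h5 : (univ.filter (fun x => x ∈ H)).card = Nat.card H := by
      rw [Nat.card_eq_fintype_card, Fintype.card_subtype]
    rw [hHF]
    exact h5.trans hH
  have hmem : ∀ x, x ∈ A ↔ x ∈ H ∨ x ∈ A₁ ∨ x ∈ A₂ := by
    intro x
    have h4 : x ∈ (A : Set (ZMod p × ZMod p)) ↔
        x ∈ (H : Set (ZMod p × ZMod p)) ∪ (A₁ : Set (ZMod p × ZMod p)) ∪
          (A₂ : Set (ZMod p × ZMod p)) := by rw [hAu]
    simp only [Set.mem_union, Finset.mem_coe, SetLike.mem_coe] at h4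
    tauto
  have hAeq : A = HF ∪ (A₁ ∪ A₂) := by
    ext x
    rw [hmem, hHF]
    simp
  have hdH : Disjoint HF (A₁ ∪ A₂) := by
    rw [Finset.disjoint_left]
    intro x hx1 hx2
    rw [hHF, mem_filter] at hx1
    have h0 := (hker x).2 hx1.2
    rcases mem_union.1 hx2 with h | h
    · exact hb0 ((hp1 x h).symm.trans h0)
    · have := (hp2 x h).symm.trans h0
      exact hb0 (neg_eq_zero.1 this)
  have hn : A₁.card + A₂.card = p - 2 := by
    rw [hAeq, card_union_of_disjoint hdH, card_union_of_disjoint hd12, hHFc] at hA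
    omega
  refine ⟨hn, fun x => ?_⟩
  obtain ⟨n1, hn1⟩ : ∃ n, n = A₁.card := ⟨_, rfl⟩
  obtain ⟨n2, hn2⟩ : ∃ n, n = A₂.card := ⟨_, rfl⟩
  rw [← hn1]
  rw [← hn1, ← hn2] at hn
  have hx : x - (n1 + 1) • a ∈ H ↔ π x = (n1 + 1) • b := by
    rw [← hker, map_sub, map_nsmul, ← hb, sub_eq_zero]
  rw [hx, mem_subsetSum_iff]
  constructor
  · intro hno
    obtain ⟨i, hi⟩ : ∃ i : ℤ, i • b = π x := by
      have := mem_zmultiples_of_prime_card (p := p) hcard (g := b) (g' := π x) hb0
      exact AddSubgroup.mem_zmultiples_iff.1 this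
    obtain ⟨j, hj⟩ : ∃ j : ℤ, j = (i + n2) % p - n2 := ⟨_, rfl⟩
    have hpz : (0 : ℤ) < p := by exact_mod_cast hp.pos
    have hj1 : -(n2 : ℤ) ≤ j := by
      have := Int.emod_nonneg (i + n2) hpz.ne'
      omega
    have hj2 : j ≤ n1 + 1 := by
      have := Int.emod_lt_of_pos (i + n2) hpz
      have h5 : (n1 : ℤ) + n2 = p - 2 := by
        have : ((n1 + n2 : ℕ) : ℤ) = ((p - 2 : ℕ) : ℤ) := by rw [hn]
        rw [Nat.cast_sub (by omega)] at this
        push_cast at this
        exact this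
      omega
    have hjb : j • b = π x := by
      have h5 : i = j + p * ((i + n2) / p) := by
        have := Int.emod_add_mul_ediv (i + n2) p
        rw [hj]
        linarith
      rw [← hi, h5, add_zsmul, mul_comm, mul_zsmul, natCast_zsmul, hpb, zsmul_zero, add_zero]
    by_cases hj3 : j = n1 + 1
    · rw [← hjb, hj3]
      have : ((n1 : ℤ) + 1) = ((n1 + 1 : ℕ) : ℤ) := by push_cast; ring
      rw [this, natCast_zsmul]
    · exfalso
      apply hno
      -- a subset `B` of `A₁` or of `A₂` with the right image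
      obtain ⟨B, hBA, hB0, hBs⟩ : ∃ B : Finset (ZMod p × ZMod p), B ⊆ A ∧ (∀ y ∈ B, π y ≠ 0) ∧
          ∑ y ∈ B, π y = j • b := by
        rcases le_or_gt 0 j with h0 | h0
        · obtain ⟨m, rfl⟩ := Int.eq_ofNat_of_zero_le h0
          obtain ⟨B, hB, hBc⟩ := Finset.exists_subset_card_eq (s := A₁) (n := m) (by omega)
          refine ⟨B, fun y hy => (hmem y).2 (Or.inr (Or.inl (hB hy))), fun y hy => ?_, ?_⟩
          · rw [hp1 y (hB hy)]
            exact hb0
          · rw [Finset.sum_congr rfl (fun y hy => hp1 y (hB hy)), sum_const, hBc]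
            exact (natCast_zsmul b m).symm
        · obtain ⟨m, hm⟩ : ∃ m : ℕ, j = -(m : ℤ) := ⟨(-j).toNat, by omega⟩
          obtain ⟨B, hB, hBc⟩ := Finset.exists_subset_card_eq (s := A₂) (n := m) (by omega)
          refine ⟨B, fun y hy => (hmem y).2 (Or.inr (Or.inr (hB hy))), fun y hy => ?_, ?_⟩
          · rw [hp2 y (hB hy)]
            exact neg_ne_zero.2 hb0
          · rw [Finset.sum_congr rfl (fun y hy => hp2 y (hB hy)), sum_const, hBc, hm, neg_zsmul,
              natCast_zsmul, neg_nsmul]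
      obtain ⟨h, hh⟩ : ∃ h, h = x - ∑ y ∈ B, y := ⟨_, rfl⟩
      have hhH : h ∈ H := by
        rw [← hker, hh, map_sub, map_sum, hBs, hjb, sub_self]
      have hhB : h ∉ B := fun hmem' => hB0 h hmem' ((hker h).2 hhH)
      refine ⟨insert h B, ?_, ?_⟩
      · intro y hy
        rcases mem_insert.1 hy with rfl | hy
        · exact (hmem _).2 (Or.inl hhH)
        · exact hBA hy
      · rw [sum_insert hhB, hh, sub_add_cancel]
  · rintro hxc ⟨B, hB, hBs⟩
    have hsum : ∑ y ∈ B, π y = (B.filter (· ∈ A₁)).card • b + (B.filter (· ∈ A₂)).card • (-b) := by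
      have h5 : ∀ y ∈ B, π y = (if y ∈ A₁ then b else 0) + (if y ∈ A₂ then -b else 0) := by
        intro y hy
        rcases (hmem y).1 (hB hy) with h | h | h
        · have h6 : y ∉ A₁ := by
            intro h7
            exact hb0 ((hp1 y h7).symm.trans ((hker y).2 h))
          have h8 : y ∉ A₂ := by
            intro h7
            exact hb0 (neg_eq_zero.1 ((hp2 y h7).symm.trans ((hker y).2 h)))
          rw [if_neg h6, if_neg h8, (hker y).2 h, add_zero]
        · have h8 : y ∉ A₂ := Finset.disjoint_left.1 hd12 h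
          rw [if_pos h, if_neg h8, hp1 y h, add_zero]
        · have h8 : y ∉ A₁ := Finset.disjoint_right.1 hd12 h
          rw [if_neg h8, if_pos h, hp2 y h, zero_add]
      rw [Finset.sum_congr rfl h5, sum_add_distrib, ← sum_filter, ← sum_filter, sum_const,
        sum_const]
    obtain ⟨c1, hc1⟩ : ∃ c, c = (B.filter (· ∈ A₁)).card := ⟨_, rfl⟩
    obtain ⟨c2, hc2⟩ : ∃ c, c = (B.filter (· ∈ A₂)).card := ⟨_, rfl⟩
    have hc1' : c1 ≤ n1 := by
      rw [hc1, hn1]
      exact card_le_card fun y hy => (mem_filter.1 hy).2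
    have hc2' : c2 ≤ n2 := by
      rw [hc2, hn2]
      exact card_le_card fun y hy => (mem_filter.1 hy).2
    have hpx : π x = c1 • b + c2 • (-b) := by
      rw [← hBs, map_sum, hsum, hc1, hc2]
    have hz : (n1 + 1 + c2 - c1) • b = 0 := by
      have h6 : (n1 + 1 + c2 - c1) • b + c1 • b = (n1 + 1) • b + c2 • b := by
        rw [← add_nsmul, ← add_nsmul]
        congr 1
        omega
      have h7 : (n1 + 1) • b + c2 • b = c1 • b := by
        rw [← hxc, hpx, neg_nsmul]
        abel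
      rw [h7] at h6
      exact add_eq_right.1 h6
    have h8 := addOrderOf_dvd_iff_nsmul_eq_zero.2 hz
    rw [hord] at h8
    have h9 := Nat.le_of_dvd (by omega) h8
    omega

end Pool.Agent.Y594.CT
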